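import Pool.Agent.Lead.Lin1

namespace Pool.Agent.Results.MP_1f8704_gt.Q1

open Pool.Agent.Lead.Lin

theorem result : ∀ (X Y : Type) [TopologicalSpace X] [T35Space X] [TopologicalSpace Y]
    [T35Space Y], Analytic X → LinCond X Y → LinCond Y X → Analytic Y := by
  rintro X Y _ _ _ _ hX ⟨T, hT, hc⟩ -
  have : Nonempty Y := by
    by_contra hn
    obtain ⟨π, -, -⟩ := hX
    have : IsEmpty Y := not_nonempty_iff.1 hn
    have h1 : (0 : C(X, ℝ)) = 1 := hT.1 (by ext y; exact isEmptyElim y)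
    simpa using DFunLike.congr_fun h1 (π 0)
  exact analytic_of_surj hX T hc hT.2

end Pool.Agent.Results.MP_1f8704_gt.Q1
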